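import Mathlib
import Pool.Agent.MP_050e69_pr.Main

set_option autoImplicit false

open MeasureTheory Filter Topology

namespace Pool.Agent.Results.MP_050e69_pr.NotAnalytic

open Pool.Agent.MP_050e69_pr

/-- For every d at least 3 there is an environment law with all exponential moments whose free
energy is negative on [1, ∞), so that the critical point is below 1, and is not real analytic
at 3/2. -/
theorem result : ∀ d : ℕ, 3 ≤ d → ∃ μ : Measure ℝ, IsProbabilityMeasure μ ∧
    (∀ β : ℝ, Integrable (fun x => Real.exp (β * x)) μ) ∧ ∃ f : ℝ → ℝ,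
      (∀ β : ℝ, ∀ᵐ ω ∂(Measure.infinitePi fun _ : ℕ × (Fin d → ℤ) => μ),
        Tendsto (fun n : ℕ => Real.log (W d μ β n ω) / n) atTop (𝓝 (f β))) ∧
      (∀ β : ℝ, 1 ≤ β → f β < 0) ∧ ¬ AnalyticAt ℝ f (3 / 2) := fun d hd => by
  obtain ⟨μ, h1, h2⟩ := main (d := d) (by omega)
  exact ⟨μ, h1, h2⟩

end Pool.Agent.Results.MP_050e69_pr.NotAnalytic
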